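import Pool.Agent.Y491.HG.Thin
import Pool.Agent.Y491.ID.Main
import Pool.Agent.H13R3.WB.Lin

/-!
# Average heights in thin posets and in posets without nearly balanced pairs
-/

set_option autoImplicit false
set_option linter.unusedSectionVars false

open Finset
open scoped Classical

namespace Pool.Agent.Y491.HG

open Pool.Agent.TH161.LW Pool.Agent.Y491.BF Pool.Agent.H13R3.WB

lemma L_eq {α : Type} [Fintype α] [PartialOrder α] {L : Finset (α ≃ Fin (Fintype.card α))}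
    (hL : ∀ f : α ≃ Fin (Fintype.card α), f ∈ L ↔ ∀ x y : α, x < y → f x < f y) :
    L = BF.LE α := by
  ext f
  rw [hL, mem_LE]
  exact ⟨fun h x y hxy => h x y hxy, fun h x y hxy => h hxy⟩

lemma card_inc {α : Type} [Fintype α] [PartialOrder α] (x : α) :
    Nat.card {w : α // ¬ w ≤ x ∧ ¬ x ≤ w} = (univ.filter fun w : α => ¬ w ≤ x ∧ ¬ x ≤ w).card := by
  rw [Nat.card_eq_fintype_card, Fintype.card_subtype]

lemma card_inc' {α : Type} [Fintype α] [PartialOrder α] (x : α) :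
    Nat.card {w : α // ¬ x ≤ w ∧ ¬ w ≤ x} = (univ.filter fun w : α => ¬ w ≤ x ∧ ¬ x ≤ w).card := by
  rw [Nat.card_eq_fintype_card, Fintype.card_subtype]
  congr 1
  ext w
  simp only [Finset.mem_filter, Finset.mem_univ, true_and]
  tauto

/-- thin posets -/
theorem part1 (K : ℕ) (α : Type) [Fintype α] [PartialOrder α]
    (hinc : ∃ a b : α, ¬ a ≤ b ∧ ¬ b ≤ a)
    (hthin : ∀ x : α, Nat.card {w : α // ¬ w ≤ x ∧ ¬ x ≤ w} ≤ K)
    (L : Finset (α ≃ Fin (Fintype.card α)))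
    (hL : ∀ f : α ≃ Fin (Fintype.card α), f ∈ L ↔ ∀ x y : α, x < y → f x < f y) :
    ∃ x y : α, x ≠ y ∧
      0 ≤ (∑ f ∈ L, ((f y : ℕ) : ℝ)) / (L.card : ℝ) - (∑ f ∈ L, ((f x : ℕ) : ℝ)) / (L.card : ℝ) ∧
      (∑ f ∈ L, ((f y : ℕ) : ℝ)) / (L.card : ℝ) - (∑ f ∈ L, ((f x : ℕ) : ℝ)) / (L.card : ℝ) ≤
        1 - 1 / (((K : ℝ) + 1) * (2 * ((K : ℝ) + 1) * (2 * K + 1) * K + 1)) := by
  rw [L_eq hL]
  obtain ⟨a, b, h1, h2⟩ := hinc
  exact thin_gap K ⟨b, a, h1, h2⟩ (fun x => by rw [← card_inc]; exact hthin x)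

lemma prob_eqL {α : Type} [Fintype α] [PartialOrder α] (x y : α) :
    prob α x y = (((BF.LE α).filter fun f => f x < f y).card : ℝ) / ((BF.LE α).card : ℝ) := by
  unfold prob
  have h : ∀ f : α ≃ Fin (Fintype.card α), Monotone ⇑f ↔ StrictMono ⇑f := fun f =>
    ⟨fun h => h.strictMono_of_injective f.injective, fun h => h.monotone⟩
  have h1 : Nat.card {f : α ≃ Fin (Fintype.card α) // Monotone f ∧ f x < f y} =
      ((BF.LE α).filter fun f => f x < f y).card := by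
    rw [Nat.card_eq_fintype_card, Fintype.card_subtype]
    congr 1
    ext f
    simp only [Finset.mem_filter, Finset.mem_univ, true_and, mem_LE, h]
  have h2 : Nat.card {f : α ≃ Fin (Fintype.card α) // Monotone f} = (BF.LE α).card := by
    rw [Nat.card_eq_fintype_card, Fintype.card_subtype]
    congr 1
    ext f
    simp only [Finset.mem_filter, Finset.mem_univ, true_and, mem_LE, h]
  rw [h1, h2]

lemma prob_add_le {α : Type} [Fintype α] [PartialOrder α] (x y : α) :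
    prob α x y + prob α y x ≤ 1 := by
  rw [prob_eqL, prob_eqL, ← add_div, div_le_one Npos]
  have h : Disjoint ((BF.LE α).filter fun f => f x < f y) ((BF.LE α).filter fun f => f y < f x) := by
    rw [Finset.disjoint_left]
    intro f h1 h2
    rw [Finset.mem_filter] at h1 h2
    exact absurd h1.2 (lt_asymm h2.2)
  have h2 : (((BF.LE α).filter fun f => f x < f y) ∪ ((BF.LE α).filter fun f => f y < f x)).card ≤
      (BF.LE α).card := Finset.card_le_card (Finset.union_subset (Finset.filter_subset _ _)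
        (Finset.filter_subset _ _))
  rw [Finset.card_union_of_disjoint h] at h2
  exact_mod_cast h2

/-- a pair attaining the balance constant -/
lemma exists_pair {α : Type} [Fintype α] [PartialOrder α] [Nonempty α] {ε : ℝ} (hε : ε < 1 / 2)
    (h : 1 / 2 - ε ≤ balance α) : ∃ x y : α, x ≠ y ∧ 1 / 2 - ε ≤ prob α x y ∧
      prob α x y ≤ 1 / 2 + ε := by
  obtain ⟨p, hp⟩ := exists_eq_ciSup_of_finite
    (f := fun p : α × α => min (prob α p.1 p.2) (prob α p.2 p.1))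
  have h1 : 1 / 2 - ε ≤ min (prob α p.1 p.2) (prob α p.2 p.1) := by
    rw [hp]; exact h
  have h2 := h1.trans (min_le_left _ _)
  have h3 := h1.trans (min_le_right _ _)
  refine ⟨p.1, p.2, ?_, h2, ?_⟩
  · intro heq
    rw [heq, prob_eqL] at h2
    simp only [lt_irrefl, Finset.filter_false, Finset.card_empty, Nat.cast_zero, zero_div] at h2
    linarith
  · have := prob_add_le p.1 p.2
    linarith

lemma num {B₀ ε : ℝ} (hB : 0 < B₀) (hε : 0 < ε) (hε2 : ε < 1 / 2) (K : ℕ)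
    (hK : K = ⌈Real.exp (B₀ * Real.log (2 / ε) ^ 3 / ε ^ 4)⌉₊) :
    Real.exp (-((4 * B₀ + 7) * Real.log (2 / ε) ^ 3 / ε ^ 4)) ≤
      1 / (((K : ℝ) + 1) * (2 * ((K : ℝ) + 1) * (2 * K + 1) * K + 1)) := by
  have hE1 : 1 ≤ Real.log (2 / ε) ^ 3 / ε ^ 4 := Pool.Agent.Y491.KS.E_ge_one hε hε2.le
  have e1 : B₀ * Real.log (2 / ε) ^ 3 / ε ^ 4 = B₀ * (Real.log (2 / ε) ^ 3 / ε ^ 4) := by ring
  have e2 : (4 * B₀ + 7) * Real.log (2 / ε) ^ 3 / ε ^ 4 =
      (4 * B₀ + 7) * (Real.log (2 / ε) ^ 3 / ε ^ 4) := by ring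
  rw [e1] at hK
  rw [e2]
  generalize Real.log (2 / ε) ^ 3 / ε ^ 4 = E at *
  have ha1 : 1 ≤ Real.exp (B₀ * E) := Real.one_le_exp (by positivity)
  have hK2 : (K : ℝ) ≤ 2 * Real.exp (B₀ * E) := by
    have := Nat.ceil_lt_add_one (Real.exp_pos (B₀ * E)).le
    rw [← hK] at this
    linarith
  have hK1 : (1 : ℝ) ≤ K := by
    have : 1 ≤ K := by
      rw [hK]
      exact Nat.one_le_ceil_iff.2 (Real.exp_pos _)
    exact_mod_cast this
  have h1 : ((K : ℝ) + 1) * (2 * ((K : ℝ) + 1) * (2 * K + 1) * K + 1) ≤ 26 * (K : ℝ) ^ 4 := by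
    have a1 : (K : ℝ) + 1 ≤ 2 * K := by linarith
    have a2 : 2 * (K : ℝ) + 1 ≤ 3 * K := by linarith
    have a3 : (1 : ℝ) ≤ (K : ℝ) ^ 3 := one_le_pow₀ hK1
    have a4 : 2 * ((K : ℝ) + 1) * (2 * K + 1) * K ≤ 12 * (K : ℝ) ^ 3 := by
      calc 2 * ((K : ℝ) + 1) * (2 * K + 1) * K ≤ 2 * (2 * K) * (3 * K) * K := by gcongr
        _ = 12 * (K : ℝ) ^ 3 := by ring
    calc ((K : ℝ) + 1) * (2 * ((K : ℝ) + 1) * (2 * K + 1) * K + 1)
        ≤ (2 * K) * (13 * (K : ℝ) ^ 3) := by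
          apply mul_le_mul a1 (by linarith) (by positivity) (by positivity)
      _ = 26 * (K : ℝ) ^ 4 := by ring
  have h2 : (K : ℝ) ^ 4 ≤ 16 * Real.exp (4 * B₀ * E) := by
    calc (K : ℝ) ^ 4 ≤ (2 * Real.exp (B₀ * E)) ^ 4 := pow_le_pow_left₀ (by linarith) hK2 4
      _ = 16 * (Real.exp (B₀ * E)) ^ 4 := by ring
      _ = 16 * Real.exp (4 * B₀ * E) := by
          rw [← Real.exp_nat_mul]
          congr 2
          push_cast
          ring
  have h3 : (416 : ℝ) ≤ Real.exp (7 * E) := by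
    have h := Real.exp_one_gt_d9
    calc (416 : ℝ) ≤ 2.7 ^ 7 := by norm_num
      _ ≤ (Real.exp 1) ^ 7 := pow_le_pow_left₀ (by norm_num) (by linarith) 7
      _ = Real.exp 7 := by rw [← Real.exp_nat_mul]; norm_num
      _ ≤ Real.exp (7 * E) := Real.exp_le_exp.2 (by linarith)
  rw [Real.exp_neg, ← one_div]
  apply one_div_le_one_div_of_le (by positivity)
  calc ((K : ℝ) + 1) * (2 * ((K : ℝ) + 1) * (2 * K + 1) * K + 1) ≤ 26 * (K : ℝ) ^ 4 := h1
    _ ≤ 416 * Real.exp (4 * B₀ * E) := by linarith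
    _ ≤ Real.exp (7 * E) * Real.exp (4 * B₀ * E) :=
        mul_le_mul_of_nonneg_right h3 (Real.exp_pos _).le
    _ = Real.exp ((4 * B₀ + 7) * E) := by rw [← Real.exp_add]; congr 1; ring

/-- posets without nearly balanced pairs -/
theorem part2 : ∃ B : ℝ, 0 < B ∧ ∀ ε : ℝ, 0 < ε → ε < 1 / 2 →
    ∀ (α : Type) [Fintype α] [PartialOrder α], (∃ a b : α, ¬ a ≤ b ∧ ¬ b ≤ a) →
    ∀ L : Finset (α ≃ Fin (Fintype.card α)),
      (∀ f : α ≃ Fin (Fintype.card α), f ∈ L ↔ ∀ x y : α, x < y → f x < f y) →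
      (∀ x y : α, x ≠ y →
        ((L.filter fun f => f x < f y).card : ℝ) / (L.card : ℝ) < 1 / 2 - ε ∨
        1 / 2 + ε < ((L.filter fun f => f x < f y).card : ℝ) / (L.card : ℝ)) →
      ∃ x y : α, x ≠ y ∧
        0 ≤ (∑ f ∈ L, ((f y : ℕ) : ℝ)) / (L.card : ℝ) - (∑ f ∈ L, ((f x : ℕ) : ℝ)) / (L.card : ℝ) ∧
        (∑ f ∈ L, ((f y : ℕ) : ℝ)) / (L.card : ℝ) - (∑ f ∈ L, ((f x : ℕ) : ℝ)) / (L.card : ℝ) ≤
          1 - Real.exp (-(B * Real.log (2 / ε) ^ 3 / ε ^ 4)) := by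
  obtain ⟨B₀, hB₀, hI⟩ := Pool.Agent.Y491.ID.incomparable_balance
  refine ⟨4 * B₀ + 7, by linarith, fun ε hε hε2 α _ _ hinc L hL hun => ?_⟩
  obtain ⟨K, hK⟩ : ∃ K : ℕ, K = ⌈Real.exp (B₀ * Real.log (2 / ε) ^ 3 / ε ^ 4)⌉₊ := ⟨_, rfl⟩
  have hne : Nonempty α := ⟨hinc.choose⟩
  have hthin : ∀ x : α, Nat.card {w : α // ¬ w ≤ x ∧ ¬ x ≤ w} ≤ K := by
    intro x
    by_contra h
    push Not at h
    have h1 : 1 / 2 - ε ≤ balance α := by
      refine hI ε hε hε2.le α x ?_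
      rw [card_inc', ← card_inc]
      refine (Nat.le_ceil _).trans ?_
      rw [← hK]
      exact_mod_cast h.le
    obtain ⟨a, b, hab, h2, h3⟩ := exists_pair hε2 h1
    rw [prob_eqL, ← L_eq hL] at h2 h3
    rcases hun a b hab with h4 | h4
    · linarith
    · linarith
  obtain ⟨x, y, h1, h2, h3⟩ := part1 K α hinc hthin L hL
  have h4 := num hB₀ hε hε2 K hK
  exact ⟨x, y, h1, h2, by linarith⟩

end Pool.Agent.Y491.HG
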