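import Pool.Agent.Y491.BF.Glob
import Pool.Agent.Y491.BF.T_BOT
import Pool.Agent.Y491.BF.T_INV

/-!
# Average heights in thin posets

In a poset which is not a chain and in which every element is incomparable to at most `K` others, two
distinct elements have average heights at distance at most `1 - γ`, with an explicit `γ` depending
only on `K`.

Proof.  Let all distances be larger than `1 - γ`.  Enumerate the elements by the average height and
let `J m` be the expected number of the pairs (element before the cut `m`, element after the cut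
`m`) in reversed order; the average height of the element with index `m` (counted from zero) is
`m + J (m + 1) - J m`.  So the increments of `J` decrease by less than `γ` in one step.  For the first
index `i₀` with an incomparable partner `J i₀ = 0` and the increment is at least `1 / (K + 1)`.  Hence
`J` grows linearly for a long time.  But `J ≤ (2K+1)K`, and `J = 0` at the end.
-/

set_option autoImplicit false
set_option linter.unusedSectionVars false

open Finset
open scoped Classical

namespace Pool.Agent.Y491.HG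

open Pool.Agent.TH161.LW Pool.Agent.Y491.BF

/-- the contradiction for sequences -/
lemma seq_false' (J : ℕ → ℝ) (i₀ n R : ℕ) (C γ ck : ℝ) (hγ : 0 ≤ γ) (hck : 0 < ck) (hi : i₀ < n)
    (hJC : ∀ m, J m ≤ C) (hi₀ : J i₀ = 0) (hn : J n = 0) (ho : ck ≤ J (i₀ + 1) - J i₀)
    (h1 : ∀ i, i + 1 < n → J (i + 1) - J i - γ ≤ J (i + 2) - J (i + 1))
    (c1 : R * γ ≤ ck) (c2 : C < R * (ck / 2)) : False := by
  have hA : ∀ j : ℕ, i₀ + j < n → ck - j * γ ≤ J (i₀ + j + 1) - J (i₀ + j) := by
    intro j
    induction j with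
    | zero => intro _; simpa using ho
    | succ j ih =>
      intro hj
      have h2 := ih (by omega)
      have h3 := h1 (i₀ + j) (by omega)
      have e1 : i₀ + (j + 1) + 1 = i₀ + j + 2 := by ring
      have e2 : i₀ + (j + 1) = i₀ + j + 1 := by ring
      rw [e1, e2]
      push_cast
      linarith
  have hS : ∀ r : ℕ, i₀ + r ≤ n → r * ck - γ * (r * (r - 1) / 2) ≤ J (i₀ + r) := by
    intro r
    induction r with
    | zero => intro _; simp [hi₀]
    | succ r ih =>
      intro hr
      have h2 := ih (by omega)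
      have h3 := hA r (by omega)
      have e1 : i₀ + (r + 1) = i₀ + r + 1 := by ring
      rw [e1]
      push_cast
      have e2 : ((r : ℝ) + 1) * ck - γ * (((r : ℝ) + 1) * ((r : ℝ) + 1 - 1) / 2) =
          (r * ck - γ * (r * (r - 1) / 2)) + (ck - r * γ) := by ring
      rw [e2]
      linarith
  have hS2 : ∀ r : ℕ, 1 ≤ r → r ≤ R → i₀ + r ≤ n → r * (ck / 2) ≤ J (i₀ + r) := by
    intro r hr1 hrR hr
    have h2 := hS r hr
    have hr1' : (1 : ℝ) ≤ r := by exact_mod_cast hr1
    have hrR' : (r : ℝ) ≤ R := by exact_mod_cast hrR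
    have h3 : γ * (r - 1) ≤ ck := by
      have : γ * ((r : ℝ) - 1) ≤ γ * R := mul_le_mul_of_nonneg_left (by linarith) hγ
      linarith
    have h4 : γ * (r * (r - 1) / 2) ≤ r * (ck / 2) := by
      have : (r : ℝ) * (γ * (r - 1)) ≤ r * ck := mul_le_mul_of_nonneg_left h3 (by linarith)
      nlinarith
    have h5 : (r : ℝ) * (ck / 2) = r * ck - r * (ck / 2) := by ring
    linarith
  rcases le_or_gt (i₀ + R) n with h | h
  · rcases Nat.eq_zero_or_pos R with h0 | h0
    · rw [h0] at c2
      have := hJC i₀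
      simp at c2
      linarith
    · have := hS2 R h0 le_rfl h
      have := hJC (i₀ + R)
      linarith
  · have h2 := hS2 (n - i₀) (by omega) (by omega) (by omega)
    have h3 : i₀ + (n - i₀) = n := by omega
    rw [h3, hn] at h2
    have h4 : (1 : ℝ) ≤ ((n - i₀ : ℕ) : ℝ) := by exact_mod_cast (by omega : 1 ≤ n - i₀)
    nlinarith

section main

variable {α : Type} [Fintype α] [PartialOrder α]

lemma HH_lt {x y : α} (h : x < y) : HH x < HH y := by
  unfold HH
  rw [div_lt_div_iff_of_pos_right Npos]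
  refine Finset.sum_lt_sum_of_nonempty (Finset.card_pos.1 LE_pos) fun σ hσ => ?_
  have h1 := gap_pos h hσ
  unfold gap at h1
  have : (σ x : ℕ) < (σ y : ℕ) := by omega
  exact_mod_cast this

/-- the constant -/
noncomputable def gam (K : ℕ) : ℝ :=
  1 / (((K : ℝ) + 1) * (2 * ((K : ℝ) + 1) * (2 * K + 1) * K + 1))

theorem thin_gap (K : ℕ) (hinc : ∃ x w : α, ¬ w ≤ x ∧ ¬ x ≤ w)
    (hthin : ∀ x : α, (univ.filter fun w : α => ¬ w ≤ x ∧ ¬ x ≤ w).card ≤ K) :
    ∃ x y : α, x ≠ y ∧ 0 ≤ HH y - HH x ∧ HH y - HH x ≤ 1 - gam K := by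
  by_contra hcon
  push Not at hcon
  obtain ⟨R, hR⟩ : ∃ R : ℕ, R = 2 * (K + 1) * (2 * K + 1) * K + 1 := ⟨_, rfl⟩
  have hRr : (R : ℝ) = 2 * ((K : ℝ) + 1) * (2 * K + 1) * K + 1 := by rw [hR]; push_cast; ring
  have hR0 : (0 : ℝ) < R := by rw [hR]; positivity
  have hgam : gam K = 1 / (((K : ℝ) + 1) * R) := by unfold gam; rw [hRr]
  have hK' : (0 : ℝ) < (K : ℝ) + 1 := by positivity
  have hg0 : 0 < gam K := by rw [hgam]; positivity
  have hg1 : gam K ≤ 1 := by
    rw [hgam, div_le_one (by positivity)]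
    have h1 : (1 : ℝ) ≤ R := by exact_mod_cast (by omega : 1 ≤ R)
    have h2 : (1 : ℝ) ≤ (K : ℝ) + 1 := by
      have : (0 : ℝ) ≤ K := Nat.cast_nonneg K
      linarith
    nlinarith
  set ck : ℝ := 1 / ((K : ℝ) + 1) with hck
  have hck0 : 0 < ck := by positivity
  have hinj : ∀ x y : α, HH x = HH y → x = y := by
    intro x y hxy
    by_contra hne
    have := hcon x y hne (by linarith)
    linarith
  obtain ⟨e, he⟩ := exists_enum (α := α)
  have hLE : ∀ i j : Fin (Fintype.card α), e i < e j → i < j := by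
    intro i j h
    by_contra h2
    have h3 := he j i (not_lt.mp h2)
    have h4 := HH_lt h
    linarith
  -- the first element with an incomparable partner
  have hex : ∃ i : ℕ, ∃ hi : i < Fintype.card α, ∃ w : α, ¬ w ≤ e ⟨i, hi⟩ ∧ ¬ e ⟨i, hi⟩ ≤ w := by
    obtain ⟨x, w, hw1, hw2⟩ := hinc
    refine ⟨e.symm x, (e.symm x).2, w, ?_, ?_⟩
    · simpa using hw1
    · simpa using hw2
  obtain ⟨i₀, hi₀n, w₀, hw1, hw2, hmin⟩ : ∃ i₀ : ℕ, ∃ hi : i₀ < Fintype.card α, ∃ w : α,
      ¬ w ≤ e ⟨i₀, hi⟩ ∧ ¬ e ⟨i₀, hi⟩ ≤ w ∧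
      ∀ i : Fin (Fintype.card α), (i : ℕ) < i₀ → ∀ w : α, w ≤ e i ∨ e i ≤ w := by
    obtain ⟨h1, w, h2, h3⟩ := Nat.find_spec hex
    refine ⟨Nat.find hex, h1, w, h2, h3, fun i hi w => ?_⟩
    by_contra h
    push Not at h
    exact Nat.find_min hex hi ⟨i.2, w, h.1, h.2⟩
  -- the sequence
  have hJC : ∀ m, JJ e m ≤ (2 * K + 1) * K := fun m => JJ_le INV.t_INVB e m K hLE hthin
  have hJi : JJ e i₀ = 0 := by
    unfold JJ
    refine Finset.sum_eq_zero fun i hi => Finset.sum_eq_zero fun j hj => ?_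
    rw [Finset.mem_filter] at hi hj
    have hij : i < j := by
      rw [Fin.lt_def]; omega
    have hlt : e i < e j := by
      rcases hmin i hi.2 (e j) with h | h
      · exfalso
        have := hLE j i (lt_of_le_of_ne h fun h2 => hij.ne (e.injective h2).symm)
        exact absurd this (not_lt.mpr hij.le)
      · exact lt_of_le_of_ne h fun h2 => hij.ne (e.injective h2)
    refine pp_zero fun σ hσ h4 => ?_
    have h2 := gap_pos hlt hσ
    have h3 := gap_swap (e i) (e j) σ
    omega
  have hJn : JJ e (Fintype.card α) = 0 := by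
    unfold JJ
    refine Finset.sum_eq_zero fun i _ => Finset.sum_eq_zero fun j hj => ?_
    rw [Finset.mem_filter] at hj
    exact absurd j.2 (not_lt.mpr hj.2)
  -- the first offset
  have hfirst : ck ≤ JJ e (i₀ + 1) - JJ e i₀ := by
    rw [hJi, sub_zero]
    set a := e ⟨i₀, hi₀n⟩ with ha
    obtain ⟨b, hb, hbmin⟩ := Finset.exists_minimal
      (s := univ.filter fun w : α => ¬ w ≤ a ∧ ¬ a ≤ w) ⟨w₀, by simp [hw1, hw2]⟩
    rw [Finset.mem_filter] at hb
    obtain ⟨-, hb1, hb2⟩ := hb
    have hbot := BOT.t_BOT α a b (K + 1) hb2 hb1 (fun w hw => by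
      by_contra h
      have h1 : ¬ w ≤ a := fun h2 => by
        rcases h2.lt_or_eq with h3 | h3
        · exact h h3
        · exact hb2 (h3 ▸ hw.le)
      have h2 : ¬ a ≤ w := fun h3 => hb2 (h3.trans hw.le)
      have h4 := hbmin (Finset.mem_filter.mpr ⟨Finset.mem_univ w, h1, h2⟩) hw.le
      exact absurd (lt_of_lt_of_le hw h4) (lt_irrefl _)) (Nat.lt_succ_of_le (hthin b))
    have hpp : ck ≤ pp fun σ => gap b a σ > 0 := by
      rw [hck, div_le_iff₀ hK']
      unfold pp
      rw [div_mul_eq_mul_div, le_div_iff₀ Npos, one_mul]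
      rw [nn_true] at hbot
      calc ((BF.LE α).card : ℝ) ≤ (((K + 1) * nn fun σ => gap b a σ > 0 : ℕ) : ℝ) := by
            exact_mod_cast hbot
        _ = (nn fun σ => gap b a σ > 0 : ℝ) * ((K : ℝ) + 1) := by push_cast; ring
    refine hpp.trans ?_
    have hj : (i₀ : ℕ) + 1 ≤ (e.symm b : ℕ) := by
      by_contra h
      have h1 : (e.symm b : ℕ) < i₀ ∨ (e.symm b : ℕ) = i₀ := by omega
      rcases h1 with h1 | h1
      · have := hmin (e.symm b) h1 a
        simp only [Equiv.apply_symm_apply] at this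
        rcases this with h2 | h2
        · exact hb2 h2
        · exact hb1 h2
      · have h2 : e.symm b = ⟨i₀, hi₀n⟩ := Fin.ext h1
        have h3 : b = a := by rw [ha, ← h2]; simp
        exact hb1 (h3 ▸ le_rfl)
    unfold JJ
    have s1 : pp (fun σ => gap b a σ > 0) ≤
        ∑ j ∈ univ.filter (fun j : Fin (Fintype.card α) => i₀ + 1 ≤ (j : ℕ)), pp fun σ => gap (e j) a σ > 0 := by
      have := Finset.single_le_sum (f := fun j : Fin (Fintype.card α) => pp fun σ => gap (e j) a σ > 0)
        (s := univ.filter (fun j : Fin (Fintype.card α) => i₀ + 1 ≤ (j : ℕ))) (fun j _ => pp_nonneg _)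
        (Finset.mem_filter.mpr ⟨Finset.mem_univ (e.symm b), hj⟩)
      simpa using this
    refine s1.trans ?_
    exact Finset.single_le_sum (f := fun i : Fin (Fintype.card α) => ∑ j ∈ univ.filter (fun j : Fin (Fintype.card α) => i₀ + 1 ≤ (j : ℕ)),
      pp fun σ => gap (e j) (e i) σ > 0) (s := univ.filter (fun i : Fin (Fintype.card α) => (i : ℕ) < i₀ + 1))
      (fun i _ => Finset.sum_nonneg fun j _ => pp_nonneg _)
      (Finset.mem_filter.mpr ⟨Finset.mem_univ (⟨i₀, hi₀n⟩ : Fin (Fintype.card α)), Nat.lt_succ_self _⟩)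
  -- the gaps
  have hgap : ∀ i, i + 1 < Fintype.card α →
      JJ e (i + 1) - JJ e i - gam K ≤ JJ e (i + 2) - JJ e (i + 1) := by
    intro i hi
    have h0 : i < Fintype.card α := by omega
    have h2 := he ⟨i, h0⟩ ⟨i + 1, hi⟩ (by rw [Fin.le_def]; simp)
    have hne : e ⟨i, h0⟩ ≠ e ⟨i + 1, hi⟩ := by
      intro h
      have := e.injective h
      rw [Fin.mk.injEq] at this
      omega
    have h3 := hcon _ _ hne (by linarith)
    have h4 := HH_eq INV.t_INV e i h0
    have h5 := HH_eq INV.t_INV e (i + 1) hi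
    rw [h4, h5] at h3
    push_cast at h3
    have e1 : i + 1 + 1 = i + 2 := rfl
    rw [e1] at h3
    linarith
  refine seq_false' (JJ e) i₀ (Fintype.card α) R ((2 * K + 1) * K) (gam K) ck hg0.le hck0 hi₀n
    hJC hJi hJn hfirst hgap ?_ ?_
  · rw [hgam, hck]
    have : (R : ℝ) * (1 / (((K : ℝ) + 1) * R)) = 1 / ((K : ℝ) + 1) := by
      field_simp
    rw [this]
  · rw [hck, hRr]
    have : (2 * ((K : ℝ) + 1) * (2 * K + 1) * K + 1) * (1 / ((K : ℝ) + 1) / 2) =
        (2 * K + 1) * K + 1 / (2 * ((K : ℝ) + 1)) := by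
      field_simp
    rw [this]
    have : 0 < 1 / (2 * ((K : ℝ) + 1)) := by positivity
    linarith

end main

end Pool.Agent.Y491.HG
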